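import Mathlib
import Pool.Agent.Y673.SL.Bs
import Pool.Agent.Y673.Loc.Glue

/-!
The field of definition of an invariant line and of the points of order two
-/

set_option autoImplicit false
set_option linter.unusedSectionVars false

namespace Pool.Agent.Q237.US

open NumberField IsDedekindDomain Ideal WeierstrassCurve Pool.Agent.H901R3.MS
  Pool.Agent.W275.FM Pool.Agent.W275.FMK Pool.Agent.Y673.Loc Pool.Agent.Y673.SL
open Pool.Agent.Y673.Loc.ZV

/-- an additive map of order dividing `p` on a line of order `p` is the identity on it -/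
theorem fix_line {V : Type} [AddCommGroup V] {p : ℕ} (hp : p.Prime) (f : V →+ V) {v : V}
    (hv : p • v = 0) (hv0 : v ≠ 0) {k : ℕ} (hk : f v = k • v) (hfp : f^[p] v = v) : f v = v := by
  have : Fact p.Prime := ⟨hp⟩
  have h1 : ∀ n : ℕ, f^[n] v = (k ^ n) • v := by
    intro n
    induction n with
    | zero => simp
    | succ n ih =>
      rw [Function.iterate_succ_apply', ih, map_nsmul, hk, ← mul_smul, pow_succ]
  have h2 : (k ^ p) • v = 1 • v := by rw [← h1, hfp, one_smul]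
  have h3 : addOrderOf v = p := addOrderOf_eq_prime hv hv0
  have h4 : k ^ p ≡ 1 [MOD p] := by
    rw [← h3]
    exact nsmul_eq_nsmul_iff_modEq.1 (by rw [h3]; exact h2)
  have h5 : k ≡ 1 [MOD p] := by
    rw [← ZMod.natCast_eq_natCast_iff] at h4 ⊢
    rw [Nat.cast_pow, ZMod.pow_card] at h4
    exact h4
  have h6 : k • v = 1 • v := by
    rw [← h3] at h5
    exact nsmul_eq_nsmul_iff_modEq.2 h5
  rw [hk, h6, one_smul]

theorem adv_over (K L : Type) [Field K] [NumberField K] [Field L] [NumberField L] [Algebra K L]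
    [IsGalois K L] (w : HeightOneSpectrum (𝓞 L)) : ∃ e : ℕ, 1 ≤ e ∧
    e ∣ Nat.card (L ≃ₐ[K] L) ∧
    (∀ x : K, (adv L w).v (algebraMap K L x) = e * (adv K (w.under (𝓞 K))).v x) := by
  set v := w.under (𝓞 K) with hv
  have hw : w.asIdeal.LiesOver v.asIdeal := ⟨rfl⟩
  refine ⟨v.asIdeal.ramificationIdx' w.asIdeal, ?_, ?_, ?_⟩
  · exact Nat.one_le_iff_ne_zero.2
      (Ideal.IsDedekindDomain.ramificationIdx'_ne_zero_of_liesOver w.asIdeal v.ne_bot)
  · rw [Ideal.ramificationIdx'_eq_ramificationIdx v.asIdeal w.asIdeal v.ne_bot,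
      ← Ideal.ramificationIdxIn_eq_ramificationIdx v.asIdeal w.asIdeal (L ≃ₐ[K] L)]
    rw [← Ideal.ncard_primesOver_mul_ramificationIdxIn_mul_inertiaDegIn v.asIdeal (𝓞 L)
      (L ≃ₐ[K] L)]
    exact Dvd.dvd.mul_left (Dvd.intro _ rfl) _
  · intro x
    show -WithZero.log (w.valuation L (algebraMap K L x)) = _ * (-WithZero.log (v.valuation K x))
    rw [← HeightOneSpectrum.valuation_liesOver L v w, WithZero.log_pow]
    simp

open scoped Classical in
/-- **The field of an invariant line.** -/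
theorem line_field {K : Type} [Field K] [NumberField K] (A B : K) (hD : 4 * A ^ 3 + 27 * B ^ 2 ≠ 0)
    {p : ℕ} (hp : p.Prime) (hp5 : 5 ≤ p)
    {v : Pt (ca (AlgebraicClosure K) A) (ca (AlgebraicClosure K) B)} (hv : p • v = 0)
    (hv0 : v ≠ 0) (hst : ∀ τ : AlgebraicClosure K ≃ₐ[K] AlgebraicClosure K,
      mp A B (τ : AlgebraicClosure K →ₐ[K] AlgebraicClosure K) v ∈ AddSubgroup.zmultiples v) :
    ∃ (L : Type) (_ : Field L) (_ : NumberField L) (_ : Algebra K L) (_ : IsGalois K L)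
      (e₁ e₂ e₃ : L) (Q : Pt (algebraMap K L A) (algebraMap K L B)),
      ¬ p ∣ Nat.card (L ≃ₐ[K] L) ∧ e₁ + e₂ + e₃ = 0 ∧ e₁ ≠ e₂ ∧ e₂ ≠ e₃ ∧ e₁ ≠ e₃ ∧
      algebraMap K L A = e₁ * e₂ + e₁ * e₃ + e₂ * e₃ ∧ algebraMap K L B = -(e₁ * e₂ * e₃) ∧
      p • Q = 0 ∧ Q ≠ 0 := by
  set Kb := AlgebraicClosure K with hKb
  have h2K : (2 : Kb) ≠ 0 := two_ne_zero
  have discK : Disc (ca Kb A) (ca Kb B) := by
    unfold Disc ca
    refine mul_ne_zero two_ne_zero ?_
    have e : (4 : Kb) * (algebraMap K Kb A) ^ 3 + 27 * (algebraMap K Kb B) ^ 2 =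
        algebraMap K Kb (4 * A ^ 3 + 27 * B ^ 2) := by
      simp only [map_mul, map_add, map_pow, map_ofNat]
    rw [e]
    exact (map_ne_zero _).2 hD
  obtain ⟨fin1, -⟩ := Mul.tor Kb (ca Kb A) (ca Kb B) discK p (by omega)
  obtain ⟨fin2, -⟩ := Mul.tor Kb (ca Kb A) (ca Kb B) discK 2 (by omega)
  set S₁ : Set Kb := {z | ∃ (x y : Kb) (h : (CV (ca Kb A) (ca Kb B)).toAffine.Nonsingular x y),
    (Affine.Point.some x y h : Pt (ca Kb A) (ca Kb B)) ∈ AddSubgroup.zmultiples v ∧
      (z = x ∨ z = y)} with hS₁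
  have hsub : S₁ ⊆ crd A B p := by
    rintro z ⟨x, y, h, h0, hz⟩
    refine ⟨x, y, h, ?_, hz⟩
    obtain ⟨k, hk⟩ := AddSubgroup.mem_zmultiples_iff.1 h0
    rw [← hk, smul_comm, hv, smul_zero]
  have hmpst : ∀ (τ : Kb ≃ₐ[K] Kb) (P : Pt (ca Kb A) (ca Kb B)),
      P ∈ AddSubgroup.zmultiples v → mp A B (τ : Kb →ₐ[K] Kb) P ∈ AddSubgroup.zmultiples v := by
    intro τ P hP
    obtain ⟨k, hk⟩ := AddSubgroup.mem_zmultiples_iff.1 hP
    rw [← hk, map_zsmul]
    exact AddSubgroup.zsmul_mem _ (hst τ) k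
  obtain ⟨L, iF, iN, iA, iG, ι, hι, hτσ⟩ := Pool.Agent.W150.FMK.Fld.main K
    (S₁ ∪ (crd A B 2 : Set Kb))
    (((crd_finite A B p fin1).subset hsub).union (crd_finite A B 2 fin2)) (by
      rintro σ z (⟨x, y, h, h0, hz⟩ | hz)
      · refine Or.inl ⟨σ x, σ y, ns_map A B (σ : Kb →ₐ[K] Kb) h, ?_, ?_⟩
        · have h1 := hmpst σ _ h0
          rw [mp_some] at h1
          exact h1
        · rcases hz with rfl | rfl
          · exact Or.inl rfl
          · exact Or.inr rfl
      · exact Or.inr (crd_map A B 2 (σ : Kb →ₐ[K] Kb) hz))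
  -- the roots of the cubic
  set f : Polynomial Kb := Polynomial.X ^ 3 + Polynomial.C (ca Kb A) * Polynomial.X +
    Polynomial.C (ca Kb B) with hf
  have fdeg : f.natDegree = 3 := by rw [hf]; compute_degree!
  have fmon : f.Monic := by rw [hf]; monicity!
  have f0 : f ≠ 0 := fmon.ne_zero
  have hev : ∀ z : Kb, f.eval z = z ^ 3 + ca Kb A * z + ca Kb B := by
    intro z; rw [hf]; simp
  have hcard : f.roots.card = 3 := by
    rw [← fdeg]; exact Polynomial.splits_iff_card_roots.1 (IsAlgClosed.splits f)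
  obtain ⟨r₁, r₂, r₃, hr⟩ := Multiset.card_eq_three.1 hcard
  have hfac : f = (Polynomial.X - Polynomial.C r₁) * (Polynomial.X - Polynomial.C r₂) *
      (Polynomial.X - Polynomial.C r₃) := by
    have h := (IsAlgClosed.splits f).eq_prod_roots
    rw [fmon.leadingCoeff, hr] at h
    rw [h]
    simp [mul_assoc]
  have hrt : ∀ z ∈ f.roots, z ∈ (crd A B 2 : Set Kb) := by
    intro z hz
    have hz' : z ^ 3 + ca Kb A * z + ca Kb B = 0 := by
      rw [← hev]; exact (Polynomial.mem_roots f0).1 hz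
    have hns : (CV (ca Kb A) (ca Kb B)).toAffine.Nonsingular z 0 := by
      rw [nonsingular_iff discK]; unfold Eqn; rw [hz']; ring
    refine ⟨z, 0, hns, ?_, Or.inl rfl⟩
    rw [two_nsmul]
    exact add_opp hns hns rfl (by simp)
  have m1 : r₁ ∈ f.roots := by rw [hr]; simp
  have m2 : r₂ ∈ f.roots := by rw [hr]; simp
  have m3 : r₃ ∈ f.roots := by rw [hr]; simp
  -- Vieta
  have ev : ∀ z : Kb, z ^ 3 + ca Kb A * z + ca Kb B = (z - r₁) * (z - r₂) * (z - r₃) := by
    intro z
    rw [← hev]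
    conv_lhs => rw [hfac]
    simp
  have v0 := ev 0
  have v1 := ev 1
  have vm := ev (-1)
  have hsum : r₁ + r₂ + r₃ = 0 := by
    have h : 2 * (r₁ + r₂ + r₃) = 0 := by linear_combination v1 + vm - 2 * v0
    exact (mul_eq_zero.1 h).resolve_left h2K
  have hA : ca Kb A = r₁ * r₂ + r₁ * r₃ + r₂ * r₃ := by
    linear_combination v1 - v0 - hsum
  have hB : ca Kb B = -(r₁ * r₂ * r₃) := by linear_combination v0
  -- distinct roots
  have hdisc : (4 : Kb) * (ca Kb A) ^ 3 + 27 * (ca Kb B) ^ 2 =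
      -((r₁ - r₂) * (r₂ - r₃) * (r₃ - r₁)) ^ 2 := by
    rw [hA, hB]
    have : r₃ = -r₁ - r₂ := by linear_combination hsum
    rw [this]; ring
  have hdne : (r₁ - r₂) * (r₂ - r₃) * (r₃ - r₁) ≠ 0 := by
    intro h
    apply discK
    rw [hdisc, h]; ring
  have n12 : r₁ ≠ r₂ := sub_ne_zero.1 (left_ne_zero_of_mul (left_ne_zero_of_mul hdne))
  have n23 : r₂ ≠ r₃ := sub_ne_zero.1 (right_ne_zero_of_mul (left_ne_zero_of_mul hdne))
  have n31 : r₃ ≠ r₁ := sub_ne_zero.1 (right_ne_zero_of_mul hdne)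
  obtain ⟨e₁, he1⟩ := hι r₁ (Or.inr (hrt r₁ m1))
  obtain ⟨e₂, he2⟩ := hι r₂ (Or.inr (hrt r₂ m2))
  obtain ⟨e₃, he3⟩ := hι r₃ (Or.inr (hrt r₃ m3))
  have hιinj : Function.Injective ι := ι.injective
  have hsumL : e₁ + e₂ + e₃ = 0 := by
    apply hιinj; rw [map_add, map_add, he1, he2, he3, hsum, map_zero]
  have hιA : ∀ a : K, ι (algebraMap K L a) = ca Kb a := fun a => ι.commutes a
  have hAL : algebraMap K L A = e₁ * e₂ + e₁ * e₃ + e₂ * e₃ := by
    apply hιinj
    rw [hιA, hA]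
    simp only [map_add, map_mul, he1, he2, he3]
  have hBL : algebraMap K L B = -(e₁ * e₂ * e₃) := by
    apply hιinj
    rw [hιA, hB]
    simp only [map_neg, map_mul, he1, he2, he3]
  have l12 : e₁ ≠ e₂ := by rintro rfl; exact n12 (he1.symm.trans he2)
  have l23 : e₂ ≠ e₃ := by rintro rfl; exact n23 (he2.symm.trans he3)
  have l13 : e₁ ≠ e₃ := by rintro rfl; exact n31 (he3.symm.trans he1)
  -- the point
  obtain ⟨xv, yv, hvn, hvs⟩ : ∃ (x y : Kb) (h : (CV (ca Kb A) (ca Kb B)).toAffine.Nonsingular x y),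
      v = (Affine.Point.some x y h : Pt (ca Kb A) (ca Kb B)) := by
    clear hst hmpst hsub hι hτσ hS₁ hv
    rcases v with _ | ⟨x, y, h⟩
    · exact absurd rfl hv0
    · exact ⟨x, y, h, rfl⟩
  have hvm : (Affine.Point.some xv yv hvn : Pt (ca Kb A) (ca Kb B)) ∈ AddSubgroup.zmultiples v := by
    rw [← hvs]; exact AddSubgroup.mem_zmultiples v
  obtain ⟨xL, hxL⟩ := hι xv (Or.inl ⟨xv, yv, hvn, hvm, Or.inl rfl⟩)
  obtain ⟨yL, hyL⟩ := hι yv (Or.inl ⟨xv, yv, hvn, hvm, Or.inr rfl⟩)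
  have hQ : ∃ h : (CV (algebraMap K L A) (algebraMap K L B)).toAffine.Nonsingular xL yL,
      p • (Affine.Point.some xL yL h : Pt (algebraMap K L A) (algebraMap K L B)) = 0 := by
    have hιcA : (ι : L →+* Kb) (algebraMap K L A) = ca Kb A := hιA A
    have hιcB : (ι : L →+* Kb) (algebraMap K L B) = ca Kb B := hιA B
    have hx' : (ι : L →+* Kb) xL = xv := hxL
    have hy' : (ι : L →+* Kb) yL = yv := hyL
    have key : ∃ h' : (CV ((ι : L →+* Kb) (algebraMap K L A))
        ((ι : L →+* Kb) (algebraMap K L B))).toAffine.Nonsingular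
        ((ι : L →+* Kb) xL) ((ι : L →+* Kb) yL),
        p • (Affine.Point.some ((ι : L →+* Kb) xL) ((ι : L →+* Kb) yL) h' :
        Pt ((ι : L →+* Kb) (algebraMap K L A)) ((ι : L →+* Kb) (algebraMap K L B))) = 0 := by
      rw [hιcA, hιcB, hx', hy']
      exact ⟨hvn, by rw [← hvs]; exact hv⟩
    obtain ⟨h', h0⟩ := key
    exact tors_desc (ι : L →+* Kb) p h' h0
  obtain ⟨hn, hn0⟩ := hQ
  refine ⟨L, iF, iN, iA, iG, e₁, e₂, e₃, Affine.Point.some xL yL hn, ?_, hsumL, l12, l23, l13, hAL,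
    hBL, hn0, Affine.Point.some_ne_zero hn⟩
  -- `p` does not divide the order of the Galois group
  intro hpG
  have : Fact p.Prime := ⟨hp⟩
  have : Finite (L ≃ₐ[K] L) := inferInstance
  obtain ⟨τ, hτ⟩ := exists_prime_orderOf_dvd_card' (G := (L ≃ₐ[K] L)) p hpG
  obtain ⟨σ, hσ, hσ1⟩ := hτσ τ
  have hpow : ∀ (n : ℕ) (x : L), ι ((τ ^ n) x) = (σ ^ n) (ι x) := by
    intro n
    induction n with
    | zero => intro x; rfl
    | succ n ih =>
      intro x
      rw [pow_succ, pow_succ, AlgEquiv.mul_apply, AlgEquiv.mul_apply, ih, hσ]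
  have hτp : τ ^ p = 1 := by rw [← hτ]; exact pow_orderOf_eq_one τ
  have hσp : ∀ x : L, (σ ^ p) (ι x) = ι x := by
    intro x
    rw [← hpow, hτp]; rfl
  have hfp : mp A B ((σ ^ p : Kb ≃ₐ[K] Kb) : Kb →ₐ[K] Kb) v = v := by
    rw [hvs, mp_some, Affine.Point.some.injEq]
    constructor
    · rw [← hxL]; exact hσp xL
    · rw [← hyL]; exact hσp yL
  obtain ⟨k, hk⟩ := zm_nat hp.pos hv (hst σ)
  have hfix : mp A B (σ : Kb →ₐ[K] Kb) v = v := by
    refine fix_line hp _ hv hv0 hk ?_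
    have h1 := (ac_mp hD hp).pow σ p v
    exact h1.symm.trans hfp
  have hfixm : ∀ P ∈ AddSubgroup.zmultiples v, mp A B (σ : Kb →ₐ[K] Kb) P = P := by
    intro P hP
    obtain ⟨m, hm⟩ := AddSubgroup.mem_zmultiples_iff.1 hP
    rw [← hm, map_zsmul, hfix]
  have hτ1 : τ = 1 := by
    apply hσ1
    rintro z (⟨x, y, h, h0, hz⟩ | ⟨x, y, h, h0, hz⟩)
    · have h1 := hfixm _ h0
      rw [mp_some, Affine.Point.some.injEq] at h1
      rcases hz with rfl | rfl
      · exact h1.1
      · exact h1.2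
    · -- two-torsion
      have hy0 : y = 0 := by
        by_contra hy
        have hyy : y ≠ -y := by
          intro h1
          apply hy
          have h2 : 2 * y = 0 := by linear_combination h1
          exact (mul_eq_zero.1 h2).resolve_left h2K
        rw [two_nsmul] at h0
        obtain ⟨h3, h4⟩ := add_dbl h h rfl hyy _ _ _ rfl rfl rfl
        rw [h4] at h0
        exact absurd h0 (Affine.Point.some_ne_zero h3)
      rcases hz with rfl | rfl
      · have hzr : z ∈ f.roots := by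
          rw [Polynomial.mem_roots f0, Polynomial.IsRoot.def, hev]
          have := (nonsingular_iff discK).1 h
          unfold Eqn at this
          rw [hy0] at this
          linear_combination -this
        obtain ⟨z', hz'⟩ := hι z (Or.inr ⟨z, y, h, h0, Or.inl rfl⟩)
        have hperm : ∀ u ∈ f.roots.toFinset, σ u ∈ f.roots.toFinset := by
          intro u hu
          rw [Multiset.mem_toFinset, Polynomial.mem_roots f0, Polynomial.IsRoot.def, hev] at hu ⊢
          have h1 := congrArg σ hu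
          have h2 : σ (ca Kb A) = ca Kb A := σ.commutes A
          have h3 : σ (ca Kb B) = ca Kb B := σ.commutes B
          rw [map_add, map_add, map_mul, map_pow, map_zero, h2, h3] at h1
          exact h1
        apply fix_of_three (fun u => σ u) f.roots.toFinset
          ((Multiset.toFinset_card_le _).trans hcard.le) hperm hp hp5
          (Multiset.mem_toFinset.2 hzr)
        have h5 : ∀ (n : ℕ) (u : Kb), (fun u => σ u)^[n] u = (σ ^ n) u := by
          intro n
          induction n with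
          | zero => intro u; rfl
          | succ n ih =>
            intro u
            rw [Function.iterate_succ_apply, ih, pow_succ]; rfl
        rw [h5, ← hz']
        exact hσp z'
      · rw [hy0, map_zero]
  rw [hτ1, orderOf_one] at hτ
  omega

end Pool.Agent.Q237.US
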