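import Mathlib
import Pool.Agent.Q237.LT.Fin

/-!
# The energy inequality for points in the identity component at given poles of `j`
-/

set_option autoImplicit false
set_option linter.unusedSectionVars false

namespace Pool.Agent.Q237.US

open NumberField IsDedekindDomain Finset Pool.Agent.H691R3 Pool.Agent.W223.AK
open Pool.Agent.TH942 Pool.Agent.TH910.LS Pool.Agent.Y733.LS Pool.Agent.Q237.LS
open Pool.Agent.Q237.LT

section Fin

variable {K : Type} [Field K] [NumberField K]

/-- the constant of the energy inequality -/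
noncomputable def c9 : ℝ := c7 + 2 * Real.log 6

theorem c9_pos : 0 < c9 := by
  unfold c9
  have h1 := c7_pos
  have h2 : 0 ≤ Real.log 6 := Real.log_nonneg (by norm_num)
  linarith

/-- the kernel at two points close to the identity component -/
theorem ker_small {Λ c c' m : ℝ} (hΛ : 0 ≤ Λ) (hm : 0 ≤ m) (h : c ≤ m) (h' : c' ≤ m) :
    -m ≤ ker Λ c c' := by
  unfold ker
  have h1 : 0 ≤ (c ^ 2 + c' ^ 2) / (2 * Λ) := by positivity
  have h2 : max c c' ≤ m := max_le h h'
  linarith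

/-- the sum of the errors over a finite set of places -/
theorem mu_sum_le (G : Finset (Pr K)) : ∑ v ∈ G, mu v ≤ Module.finrank ℚ K * Real.log 6 := by
  classical
  have e2 : ∑ᶠ v : Pr K, mu v = Module.finrank ℚ K * Real.log 6 := by
    have h5 := fin_nat (K := K) (n := 6) (by norm_num)
    have h6 : ∑ᶠ v : Pr K, mu v = -∑ᶠ v : Pr K, Real.log (fv v ((6 : ℕ) : K)) := by
      rw [← finsum_neg_distrib]
      rfl
    rw [h6, h5]
    push_cast
    ring
  rw [← e2, finsum_eq_sum_of_support_subset (s := G ∪ Fs_mu.toFinset) _ (by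
    intro v hv
    rw [Finset.coe_union]
    exact Or.inr (by simpa using hv))]
  exact Finset.sum_le_sum_of_subset_of_nonneg Finset.subset_union_left fun v _ _ => mu_nonneg v

/-- **The energy inequality for points near the identity component at the places of `G`.** -/
theorem energyZ {a b : K} (ha : a ≠ 0) (hb : b ≠ 0) (hD : dl a b ≠ 0) {N : ℕ}
    (X : Fin N → K) (hX : Function.Injective X) (G : Finset (Pr K)) (hG : G ⊆ wa (jj a b))
    (hG0 : ∀ v ∈ G, ∀ i, pA a b (X i) (fv v) ≤ 2 * mu v) {H : ℝ}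
    (hH : ∀ i, PsiA a b (X i) ≤ H + Er K / 3) :
    (N : ℝ) ^ 2 * (∑ v ∈ G, Real.log (fv v (jj a b))) / 6 ≤
      N * ht (jj a b) / 6 + ((N : ℝ) ^ 2 - N) * (2 * H + Module.finrank ℚ K * c9) := by
  classical
  have hN0 : 0 ≤ (N : ℝ) ^ 2 - N := by rw [← offDiag_card']; positivity
  set n : ℝ := (Module.finrank ℚ K : ℝ) with hn
  set S := Sa (fun w : AbsoluteValue K ℝ => Real.log (sz w a b)) with hS
  have h1 : ∑ p ∈ (univ : Finset (Fin N)).offDiag, (Sj (jj a b) (fun w =>
      ker (lA (jj a b) w) (pA a b (X p.1) w) (pA a b (X p.2) w)) + S) ≤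
      ∑ p ∈ (univ : Finset (Fin N)).offDiag, (2 * H + 2 * (Er K / 3) + 100 * (n * c6)) := by
    refine Finset.sum_le_sum fun p hp => ?_
    have hne : X p.1 ≠ X p.2 := fun h => (Finset.mem_offDiag.1 hp).2.2 (hX h)
    have h2 := pair_all ha hb hD hne ∅ (by simp) (by simp) (by simp)
    rw [Finset.sum_empty] at h2
    have h3 := hH p.1
    have h4 := hH p.2
    linarith
  rw [Finset.sum_add_distrib, Finset.sum_const, Finset.sum_const, nsmul_eq_mul, nsmul_eq_mul,
    offDiag_card', Sj_sum] at h1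
  set g : Pr K → ℝ := fun v => if v ∈ G then (N : ℝ) ^ 2 * (Real.log (fv v (jj a b)) / 6) -
    ((N : ℝ) ^ 2 - N) * (2 * mu v) else 0 with hg
  have h2 : ∑ v ∈ G, ((N : ℝ) ^ 2 * (Real.log (fv v (jj a b)) / 6) -
      ((N : ℝ) ^ 2 - N) * (2 * mu v)) - (N : ℝ) ^ 2 * (ht (jj a b) / 6) ≤
      Sj (jj a b) (fun w => ∑ p ∈ (univ : Finset (Fin N)).offDiag,
        ker (lA (jj a b) w) (pA a b (X p.1) w) (pA a b (X p.2) w)) := by
    unfold Sj
    have e1 : ∑ v ∈ wa (jj a b), (g v -
          (N : ℝ) ^ 2 * (Real.log (max (fv v (jj a b)) 1) / 6)) ≤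
        ∑ v ∈ wa (jj a b), ∑ p ∈ (univ : Finset (Fin N)).offDiag,
        ker (lA (jj a b) (fv v)) (pA a b (X p.1) (fv v)) (pA a b (X p.2) (fv v)) := by
      refine Finset.sum_le_sum fun v hv => ?_
      by_cases hvG : v ∈ G
      · have e5 : g v = (N : ℝ) ^ 2 * (Real.log (fv v (jj a b)) / 6) -
          ((N : ℝ) ^ 2 - N) * (2 * mu v) := if_pos hvG
        rw [e5, max_eq_left (mem_wa.1 hv).le]
        have h6 : ∑ p ∈ (univ : Finset (Fin N)).offDiag, (-(2 * mu v)) ≤
            ∑ p ∈ (univ : Finset (Fin N)).offDiag,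
            ker (lA (jj a b) (fv v)) (pA a b (X p.1) (fv v)) (pA a b (X p.2) (fv v)) :=
          Finset.sum_le_sum fun p _ => ker_small (lA_nonneg _ _)
            (by have := mu_nonneg v; positivity) (hG0 v hvG _) (hG0 v hvG _)
        rw [Finset.sum_const, nsmul_eq_mul, offDiag_card'] at h6
        linarith
      · have e5 : g v = 0 := if_neg hvG
        rw [e5]
        have h6 := energy_fin hb X hv 0
        linarith
    have e2 : ∑ w : InfinitePlace K, (w.mult : ℝ) *
        (-((N : ℝ) ^ 2 * (Real.log (max (w.1 (jj a b)) 1) / 6))) ≤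
        ∑ w : InfinitePlace K, (w.mult : ℝ) * ∑ p ∈ (univ : Finset (Fin N)).offDiag,
        ker (lA (jj a b) w.1) (pA a b (X p.1) w.1) (pA a b (X p.2) w.1) := by
      refine Finset.sum_le_sum fun w _ => mul_le_mul_of_nonneg_left ?_ (Nat.cast_nonneg _)
      have h5 := ker_real (lA_nonneg (jj a b) w.1) (fun i => pA a b (X i) w.1)
        (fun i => pA_nonneg _ _ _ _) (fun i => pA_le _ _ _ _)
      refine le_trans (le_of_eq ?_) h5
      unfold lA
      ring
    have e3 := ht_Sj (jj a b)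
    unfold Sj at e3
    have e6 : ∑ v ∈ wa (jj a b), g v = ∑ v ∈ G, ((N : ℝ) ^ 2 * (Real.log (fv v (jj a b)) / 6) -
        ((N : ℝ) ^ 2 - N) * (2 * mu v)) := by
      rw [hg, Finset.sum_ite_mem, Finset.inter_eq_right.2 hG]
    set B := ∑ v ∈ wa (jj a b), Real.log (max (fv v (jj a b)) 1) with hB
    set A := ∑ w : InfinitePlace K, (w.mult : ℝ) * Real.log (max (w.1 (jj a b)) 1) with hA
    have e4 : ∑ w : InfinitePlace K, (w.mult : ℝ) *
        (-((N : ℝ) ^ 2 * (Real.log (max (w.1 (jj a b)) 1) / 6))) = -((N : ℝ) ^ 2 * (A / 6)) := by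
      rw [hA, Finset.sum_div, Finset.mul_sum, ← Finset.sum_neg_distrib]
      refine Finset.sum_congr rfl fun w _ => by ring
    rw [e4] at e2
    rw [Finset.sum_sub_distrib, e6, ← Finset.mul_sum, ← Finset.sum_div, ← hB] at e1
    have h10 : (N : ℝ) ^ 2 * (ht (jj a b) / 6) =
        (N : ℝ) ^ 2 * (A / 6) + (N : ℝ) ^ 2 * (B / 6) := by
      rw [e3]
      ring
    linarith
  rw [Finset.sum_sub_distrib, ← Finset.mul_sum, ← Finset.sum_div, ← Finset.mul_sum,
    ← Finset.mul_sum] at h2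
  have h3 := sz_sum ha hb hD
  rw [← hn, ← hS] at h3
  have h5 : ((N : ℝ) ^ 2 - N) * ((ht (jj a b) - n * Real.log 6912) / 6) ≤
      ((N : ℝ) ^ 2 - N) * S := mul_le_mul_of_nonneg_left (by linarith) hN0
  have h6 : ((N : ℝ) ^ 2 - N) * (2 * ∑ v ∈ G, mu v) ≤
      ((N : ℝ) ^ 2 - N) * (2 * (n * Real.log 6)) :=
    mul_le_mul_of_nonneg_left (by have := mu_sum_le G; linarith) hN0
  have e2 : n * c9 = 2 * (Er K / 3) + 100 * (n * c6) + n * Real.log 6912 / 6 +
      2 * (n * Real.log 6) := by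
    unfold c9 c7 Er
    rw [← hn]
    ring
  rw [e2]
  nlinarith

end Fin

end Pool.Agent.Q237.US
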