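import Mathlib
import Pool.Agent.Q237.LT.Fin
import Pool.Agent.Y673.Loc.Glue

/-!
# Points of level zero are near the identity component
-/

set_option autoImplicit false
set_option linter.unusedSectionVars false

namespace Pool.Agent.Q237.US

open NumberField IsDedekindDomain Finset Pool.Agent.H691R3 Pool.Agent.W223.AK
open Pool.Agent.TH942 Pool.Agent.TH910.LS Pool.Agent.Y733.LS Pool.Agent.Q237.LS
open Pool.Agent.Y673.Loc Pool.Agent.Y673.Loc.ZV
open Pool.Agent.Q237.LT hiding cA
open WeierstrassCurve Pool.Agent.H901R3.MS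

section

variable {K : Type} [Field K] [NumberField K]

theorem fv_adv (v : Pr K) {x : K} (hx : x ≠ 0) :
    fv v x = (Nv v) ^ (-(adv K v).v x) := by
  have h1 : fv v x = _ := NumberField.FinitePlace.norm_embedding' (v := v) (x := x)
  have hx' : v.valuation K x ≠ 0 := (Valuation.ne_zero_iff _).mpr hx
  rw [WithZeroMulInt.toNNReal_neg_apply _ hx'] at h1
  have h2 : (adv K v).v x = -WithZero.log (v.valuation K x) := rfl
  rw [h1, h2, neg_neg, ← WithZero.toAdd_unzero_eq_log hx']
  push_cast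
  rfl

theorem ps_small' {Λ y m : ℝ} (hm : 0 ≤ m) (hy : 0 < y) (h : -m ≤ Real.log y) : ps Λ y ≤ m := by
  unfold ps
  split_ifs with h1
  · have h2 := Real.log_le_log hy h1
    rw [Real.log_exp] at h2
    linarith
  · exact max_le hm (by linarith)

/-- a point of level zero is near the identity component -/
theorem pA_small [DecidableEq K] {w : Pr K} {c H : ℤ} {e η : K} (D : Dt (adv K w) c H e η) {x : K}
    (h : NN (adv K w) c H ((x - e) / (3 * e)) 0) :
    pA (cA e η) (cB e η) x (fv w) ≤ 2 * mu w := by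
  have hna := fv_Na w
  have hH := D.dat.hH
  have h3e := D.h3e
  have he := D.he
  have hN := Nv_one_lt w
  have hN0 := Nv_pos w
  have h20 : (2 : K) ≠ 0 := D.two
  set V := fv w with hV
  have hc2 : V 2 = (Nv w) ^ (-c) := by
    rw [hV, fv_adv w h20, D.dat.two.2]
  obtain ⟨n, hn, hE⟩ := NN.zero hH h
  have hXne : (x - e) / (3 * e) ≠ 0 := hE.1
  have hX0 : x - e ≠ 0 := fun h0 => hXne (by rw [h0, zero_div])
  have g1 : V 4 ≤ V ((x - e) / (3 * e)) := by
    have e1 : V ((x - e) / (3 * e)) = (Nv w) ^ (-n) := by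
      rw [hV, fv_adv w hXne, hE.2]
    have e2 : (4 : K) = 2 ^ 2 := by norm_num
    rw [e1, e2, map_pow, hc2, ← zpow_natCast, ← zpow_mul]
    exact zpow_le_zpow_right₀ hN.le (by push_cast; omega)
  have hη0 : η ≠ 0 := by
    rintro rfl
    exact D.dat.del.1 (by simp)
  have g2 : V ((η / (3 * e)) ^ 2) < V 64 := by
    have e1 : V ((η / (3 * e)) ^ 2) = (Nv w) ^ (-(2 * H + 6 * c)) := by
      rw [hV, fv_adv w D.dat.del.1, D.dat.del.2]
    have e2 : (64 : K) = 2 ^ 6 := by norm_num
    rw [e1, e2, map_pow, hc2, ← zpow_natCast, ← zpow_mul]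
    exact zpow_lt_zpow_right₀ hN (by push_cast; omega)
  have pe : 0 < V e := V.pos he
  have p3 : 0 < V 3 := V.pos D.three
  have p2 : 0 < V 2 := V.pos h20
  have l2 : V 2 ≤ 1 := hna.ofNat (w := V) 2
  have l3 : V 3 ≤ 1 := hna.ofNat (w := V) 3
  have e4 : V 4 = V 2 ^ 2 := by rw [← map_pow]; congr 1; norm_num
  have e64 : V 64 = V 2 ^ 6 := by rw [← map_pow]; congr 1; norm_num
  have g1' : V 2 ^ 2 * (V 3 * V e) ≤ V (x - e) := by
    rw [map_div₀, le_div_iff₀ (V.pos h3e), map_mul, e4] at g1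
    exact g1
  have g2' : V η ^ 2 < V 2 ^ 6 * (V 3 * V e) ^ 2 := by
    rw [map_pow, map_div₀, div_pow, div_lt_iff₀ (by have := V.pos h3e; positivity), map_mul,
      e64] at g2
    exact g2
  set s := V 2 with hs
  set t := V 3 with ht
  set r := V e with hr
  set X := V (x - e) with hX
  -- the strict ultrametric inequality
  have hdom : ∀ u z : K, V z < V u → V (u + z) = V u := by
    intro u z hz
    apply le_antisymm
    · exact (hna u z).trans (max_le le_rfl hz.le)
    · have h1 : V u ≤ max (V (u + z)) (V (-z)) := by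
        have := hna (u + z) (-z)
        rwa [add_neg_cancel_right] at this
      rw [V.map_neg] at h1
      rcases le_max_iff.1 h1 with h2 | h2
      · exact h2
      · exact absurd h2 (not_le.2 hz)
  have s6 : s ^ 6 ≤ 1 := pow_le_one₀ p2.le l2
  have hη2 : V (η ^ 2) < V (3 * e ^ 2) := by
    rw [map_pow, map_mul, map_pow]
    refine g2'.trans_le ?_
    have h1 : s ^ 6 * (t * r) ^ 2 = (s ^ 6 * t) * (t * r ^ 2) := by ring
    rw [h1]
    have h2 : s ^ 6 * t ≤ 1 := mul_le_one₀ s6 p3.le l3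
    have h3 : 0 ≤ t * r ^ 2 := by positivity
    exact mul_le_of_le_one_left h3 h2
  have k1 : V (3 * e ^ 2 + η ^ 2) = t * r ^ 2 := by
    rw [hdom _ _ hη2, map_mul, map_pow]
  have k2 : V ((3 * e ^ 2 + η ^ 2) * (x - e)) = t * r ^ 2 * X := by
    rw [map_mul, k1]
  have k3 : V (4 * e * η ^ 2) < V ((3 * e ^ 2 + η ^ 2) * (x - e)) := by
    rw [k2, map_mul, map_mul, map_pow, e4]
    have h1 : s ^ 2 * r * V η ^ 2 < s ^ 2 * r * (s ^ 6 * (t * r) ^ 2) :=
      mul_lt_mul_of_pos_left g2' (by positivity)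
    refine h1.trans_le ?_
    have h2 : t * r ^ 2 * (s ^ 2 * (t * r)) ≤ t * r ^ 2 * X :=
      mul_le_mul_of_nonneg_left g1' (by positivity)
    refine le_trans ?_ h2
    have h3 : s ^ 2 * r * (s ^ 6 * (t * r) ^ 2) = s ^ 6 * (t * r ^ 2 * (s ^ 2 * (t * r))) := by ring
    rw [h3]
    exact mul_le_of_le_one_left (by positivity) s6
  have k4 : V (2 * cA e η * x + 3 * cB e η) = s * (t * r ^ 2 * X) := by
    have h1 : 2 * cA e η * x + 3 * cB e η =
        -(2 * ((3 * e ^ 2 + η ^ 2) * (x - e) + 4 * e * η ^ 2)) := by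
      unfold cA cB; ring
    rw [h1, V.map_neg, map_mul, hdom _ _ k3, k2]
  have k5 : V (cB e η) = s * r ^ 3 := by
    have h1 : cB e η = 2 * e * (e ^ 2 + -η ^ 2) := by unfold cB; ring
    have h2 : V (-η ^ 2) < V (e ^ 2) := by
      rw [V.map_neg, map_pow, map_pow]
      refine g2'.trans_le ?_
      have h3 : s ^ 6 * (t * r) ^ 2 = (s ^ 6 * t ^ 2) * r ^ 2 := by ring
      rw [h3]
      exact mul_le_of_le_one_left (by positivity) (mul_le_one₀ s6 (by positivity)
        (pow_le_one₀ p3.le l3))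
    rw [h1, map_mul, map_mul, hdom _ _ h2, map_pow]
    ring
  have k6 : (V 6) ^ 2 ≤ V (2 * cA e η * x + 3 * cB e η) / V (cB e η) := by
    have e6 : V 6 = s * t := by rw [hs, ht, ← map_mul]; congr 1; norm_num
    rw [k4, k5, le_div_iff₀ (by positivity), e6]
    have h1 : (s * t) ^ 2 * (s * r ^ 3) = s * (t * r ^ 2 * (s ^ 2 * (t * r))) := by ring
    rw [h1]
    gcongr
  have p6 : 0 < V 6 := V.pos (by norm_num)
  unfold pA
  apply ps_small'
  · have := mu_nonneg w
    positivity
  · exact lt_of_lt_of_le (by positivity) k6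
  · have h1 := Real.log_le_log (by positivity) k6
    rw [Real.log_pow] at h1
    unfold Pool.Agent.Q237.LT.mu
    rw [← hV]
    push_cast at h1
    linarith

end

end Pool.Agent.Q237.US
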