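import Mathlib
import Pool.Agent.Q237.US.Ene
import Pool.Agent.Q237.US.Pos
import Pool.Agent.Y673.Loc.Glue

/-!
# A point of prime order at the poles of `j` where the order does not divide the valuation
-/

set_option autoImplicit false
set_option linter.unusedSectionVars false

namespace Pool.Agent.Q237.US

open NumberField IsDedekindDomain Finset Pool.Agent.H691R3 Pool.Agent.W223.AK
open Pool.Agent.TH942 Pool.Agent.TH910.LS Pool.Agent.Y733.LS Pool.Agent.Q237.LS
open Pool.Agent.Y673.Loc Pool.Agent.Y673.Loc.ZV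
open Pool.Agent.Q237.LT hiding cA
open WeierstrassCurve Pool.Agent.H901R3.MS

section

variable {K : Type} [Field K] [NumberField K] [DecidableEq K]

/-- a point of prime order has level zero, hence is near the identity component -/
theorem pA_tors {w : Pr K} {c H : ℤ} {e η : K} (D : Dt (adv K w) c H e η) {a b : K}
    (ha : a = cA e η) (hb : b = cB e η) {p : ℕ} (hp : p.Prime) (hpH : ¬ (p : ℤ) ∣ 2 * H)
    {x y : K} (h : (sw a b).toAffine.Nonsingular x y)
    (hP : p • (Affine.Point.some x y h : SPt a b) = 0) : pA a b x (fv w) ≤ 2 * mu w := by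
  subst ha hb
  have h' : (CV (cA e η) (cB e η)).toAffine.Nonsingular x y := h
  have hP' : p • (Affine.Point.some x y h' : Pt (cA e η) (cB e η)) = 0 := hP
  obtain ⟨a', ha'⟩ := LV.total D (Affine.Point.some x y h' : Pt (cA e η) (cB e η))
  have h0 : a' = 0 := by
    by_contra hne
    have h1 := LV.nonneg D ha'
    exact hpH (LV.prime D ha' (by omega) hp hP')
  subst h0
  exact pA_small D ha'

theorem mem_wa_v {j : K} {w : Pr K} (h : w ∈ wa j) : j ≠ 0 ∧ (adv K w).v j < 0 := by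
  have h1 := mem_wa.1 h
  have h0 : j ≠ 0 := by
    rintro rfl
    rw [map_zero] at h1
    linarith
  refine ⟨h0, ?_⟩
  by_contra hcon
  push Not at hcon
  rw [fv_adv w h0] at h1
  have h2 : (Nv w) ^ (-(adv K w).v j) ≤ 1 :=
    zpow_le_one_of_nonpos₀ (Nv_one_lt w).le (by omega)
  linarith

theorem v_wa_mem {j : K} {w : Pr K} (h : (adv K w).v j < 0) : w ∈ wa j := by
  have h0 : j ≠ 0 := by
    rintro rfl
    have : (adv K w).v 0 = 0 := by
      show -WithZero.log (w.valuation K 0) = 0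
      rw [map_zero, WithZero.log_zero, neg_zero]
    omega
  rw [mem_wa, fv_adv w h0]
  exact one_lt_zpow₀ (Nv_one_lt w) (by omega)

/-- the bound at one place -/
theorem pA_roots {e₁ e₂ e₃ a b : K} (hsum : e₁ + e₂ + e₃ = 0) (h12 : e₁ ≠ e₂) (h23 : e₂ ≠ e₃)
    (h13 : e₁ ≠ e₃) (hA : a = e₁ * e₂ + e₁ * e₃ + e₂ * e₃) (hB : b = -(e₁ * e₂ * e₃))
    {p : ℕ} (hp : p.Prime) {w : Pr K} (hw : w ∈ wa (jj a b))
    (hwp : ¬ (p : ℤ) ∣ (adv K w).v (jj a b)) {x y : K} (h : (sw a b).toAffine.Nonsingular x y)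
    (hP : p • (Affine.Point.some x y h : SPt a b) = 0) : pA a b x (fv w) ≤ 2 * mu w := by
  have hc : 0 ≤ (adv K w).v 2 := by
    have := v_natCast_nonneg w 2 (by norm_num)
    exact_mod_cast this
  have h2L : (adv K w).E ((adv K w).v 2) (2 : K) := E_of_ne two_ne_zero
  obtain ⟨hj0, hjneg⟩ := mem_wa_v hw
  have hjr : jr e₁ e₂ e₃ = jj a b := by
    unfold jr jj
    have hDL : 4 * a ^ 3 + 27 * b ^ 2 = -((e₁ - e₂) * (e₂ - e₃) * (e₃ - e₁)) ^ 2 := by
      rw [hA, hB]
      have : e₃ = -e₁ - e₂ := by linear_combination hsum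
      rw [this]; ring
    have hdL : ((e₁ - e₂) * (e₂ - e₃) * (e₃ - e₁)) ≠ 0 :=
      mul_ne_zero (mul_ne_zero (sub_ne_zero.2 h12) (sub_ne_zero.2 h23)) (sub_ne_zero.2 h13.symm)
    rw [hDL, hA]
    have : e₃ = -e₁ - e₂ := by linear_combination hsum
    subst this
    rw [div_eq_div_iff (pow_ne_zero 2 hdL) (neg_ne_zero.2 (pow_ne_zero 2 hdL))]
    ring
  have hEj : (adv K w).E ((adv K w).v (jj a b)) (jr e₁ e₂ e₃) := by
    rw [hjr]
    exact E_of_ne hj0
  obtain ⟨e, η, H, D, hH, hcA, hcB⟩ := root_data hc h2L (by norm_num) hsum h12 h23 h13 hjneg hEj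
  refine pA_tors D (by rw [hA, hcA]) (by rw [hB, hcB]) hp ?_ h hP
  rw [hH]
  intro h1
  exact hwp ((dvd_neg).1 h1)

/-- **A point of prime order bounds the part of the height of `j` at the poles where the order
does not divide the valuation.** -/
theorem tors_sum {e₁ e₂ e₃ a b : K} (hsum : e₁ + e₂ + e₃ = 0) (h12 : e₁ ≠ e₂) (h23 : e₂ ≠ e₃)
    (h13 : e₁ ≠ e₃) (hA : a = e₁ * e₂ + e₁ * e₃ + e₂ * e₃) (hB : b = -(e₁ * e₂ * e₃))
    (ha : a ≠ 0) (hb : b ≠ 0) {p : ℕ} (hp : p.Prime) (N : ℕ) (hN : 0 < N) (hNp : 2 * N < p)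
    {Q : SPt a b} (hQ : p • Q = 0) (hQ0 : Q ≠ 0) (G : Finset (Pr K)) (hG : G ⊆ wa (jj a b))
    (hGp : ∀ w ∈ G, ¬ (p : ℤ) ∣ (adv K w).v (jj a b)) :
    ∑ v ∈ G, Real.log (fv v (jj a b)) ≤
      ht (jj a b) / N + 6 * (Module.finrank ℚ K * c9) := by
  classical
  have hD : dl a b ≠ 0 := by
    have hDL : dl a b = -((e₁ - e₂) * (e₂ - e₃) * (e₃ - e₁)) ^ 2 := by
      unfold dl
      rw [hA, hB]
      have : e₃ = -e₁ - e₂ := by linear_combination hsum
      rw [this]; ring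
    rw [hDL]
    exact neg_ne_zero.2 (pow_ne_zero 2 (mul_ne_zero (mul_ne_zero (sub_ne_zero.2 h12)
      (sub_ne_zero.2 h23)) (sub_ne_zero.2 h13.symm)))
  have hm : ∀ m : ℕ, 1 ≤ m → m ≤ p - 1 → m • Q ≠ 0 := by
    intro m h1 h2 h3
    have : Fact p.Prime := ⟨hp⟩
    have h4 : addOrderOf Q = p := addOrderOf_eq_prime hQ hQ0
    have h5 : p ∣ m := by
      rw [← h4]
      exact addOrderOf_dvd_of_nsmul_eq_zero h3
    have := Nat.le_of_dvd (by omega) h5
    have := hp.two_le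
    omega
  have hmult : ∀ i : Fin N, ∃ (x y : K) (h : (sw a b).toAffine.Nonsingular x y),
      ((i : ℕ) + 1) • Q = Affine.Point.some x y h := fun i =>
    exists_coord _ (hm _ (by omega) (by have := i.2; omega))
  choose x y h hxy using hmult
  have hinj : Function.Injective x := by
    intro i j hij
    by_contra hne
    obtain ⟨y1, h1, e1⟩ : ∃ (y1 : K) (h1 : (sw a b).toAffine.Nonsingular (x i) y1),
      ((i : ℕ) + 1) • Q = Affine.Point.some (x i) y1 h1 := ⟨y i, h i, hxy i⟩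
    obtain ⟨y2, h2, e2⟩ : ∃ (y2 : K) (h2 : (sw a b).toAffine.Nonsingular (x j) y2),
      ((j : ℕ) + 1) • Q = Affine.Point.some (x j) y2 h2 := ⟨y j, h j, hxy j⟩
    have hi := i.2
    have hj := j.2
    have hne' : (i : ℕ) ≠ j := fun h9 => hne (Fin.ext h9)
    generalize x i = z1 at h1 e1 hij
    subst hij
    rcases same_x h1 h2 with h3 | h3
    · rw [← e1, ← e2] at h3
      rcases lt_or_gt_of_ne hne' with h4 | h4
      · exact smul_ne hm (k := (j : ℕ) + 1) (l := (i : ℕ) + 1) (by omega) (by omega) h3.symm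
      · exact smul_ne hm (k := (i : ℕ) + 1) (l := (j : ℕ) + 1) (by omega) (by omega) h3
    · rw [← e1, ← e2, ← add_smul] at h3
      exact hm _ (by omega) (by omega) h3
  have hbound : ∀ i, PsiA a b (x i) ≤ 0 + Er K / 3 := by
    intro i
    have h2 := psiA_le ha hb hD (h i)
    rw [← hxy i, tors_zero (a := a) (b := b) hD] at h2
    · exact h2
    · rw [isOfFinAddOrder_iff_nsmul_eq_zero]
      exact ⟨p, hp.pos, by rw [smul_comm, hQ, smul_zero]⟩
  have hen := energyZ ha hb hD x hinj G hG (fun v hv i => by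
    refine pA_roots hsum h12 h23 h13 hA hB hp (hG hv) (hGp v hv) (h i) ?_
    rw [← hxy i, smul_comm, hQ, smul_zero]) hbound
  set S := ∑ v ∈ G, Real.log (fv v (jj a b)) with hS
  set n : ℝ := (Module.finrank ℚ K : ℝ) with hn
  have hN0 : (0 : ℝ) < N := by exact_mod_cast hN
  have hc9 := c9_pos
  have hn0 : 0 ≤ n := Nat.cast_nonneg _
  have h5 : S = (N : ℝ) ^ 2 * S / (N : ℝ) ^ 2 := by field_simp
  have h6 : (N : ℝ) ^ 2 * S ≤ (N : ℝ) ^ 2 * (ht (jj a b) / N + 6 * (n * c9)) := by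
    have h7 : (N : ℝ) ^ 2 * (ht (jj a b) / N + 6 * (n * c9)) =
        N * ht (jj a b) + (N : ℝ) ^ 2 * (6 * (n * c9)) := by field_simp
    rw [h7]
    have h8 : ((N : ℝ) ^ 2 - N) * (2 * 0 + n * c9) ≤ (N : ℝ) ^ 2 * (n * c9) := by
      have : 0 ≤ N * (n * c9) := by positivity
      nlinarith
    linarith
  exact le_of_mul_le_mul_left h6 (by positivity)

end

end Pool.Agent.Q237.US
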