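import Mathlib
import Pool.Agent.Q237.US.Tors
import Pool.Agent.Q237.US.Fld

/-!
The poles of `j` and the Galois image on the points of order `p`
-/

set_option autoImplicit false
set_option linter.unusedSectionVars false

namespace Pool.Agent.Q237.US

open NumberField IsDedekindDomain Finset Pool.Agent.H691R3 Pool.Agent.W223.AK
open Pool.Agent.TH942 Pool.Agent.TH910.LS Pool.Agent.Y733.LS Pool.Agent.Q237.LS
open Pool.Agent.Y725.LS (below ldeg ldeg_pos ext_apply mem_over ideal_inj)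
open Pool.Agent.Y673.Loc Pool.Agent.Y673.Loc.ZV
open Pool.Agent.Q237.LT hiding cA
open WeierstrassCurve Pool.Agent.H901R3.MS
open Pool.Agent.Y673.SL (HasSL has_or)

section Ext

variable {K : Type} [Field K] [NumberField K] {L : Type} [Field L] [NumberField L] [Algebra K L]

/-- the fundamental identity -/
theorem sum_ldeg_wa (j : K) {v : Pr K} (hv : v ∈ wa j) [DecidableEq (Pr K)] :
    ∑ w ∈ (wa (algebraMap K L j)).filter (fun w => w.under (𝓞 K) = v),
      ldeg K (FinitePlace.mk w) = Module.finrank K L := by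
  classical
  haveI : v.asIdeal.IsMaximal := v.isMaximal
  have h := Ideal.sum_ramification_inertia (R := 𝓞 K) (𝓞 L) K L (p := v.asIdeal) v.ne_bot
  rw [← h]
  have hinj : Set.InjOn (fun w : Pr L => w.asIdeal)
      ((wa (algebraMap K L j)).filter (fun w => w.under (𝓞 K) = v) : Finset (Pr L)) :=
    fun a _ b _ hab => HeightOneSpectrum.ext hab
  have h1 : ∑ w ∈ (wa (algebraMap K L j)).filter (fun w => w.under (𝓞 K) = v),
      ldeg K (FinitePlace.mk w) =
      ∑ P ∈ ((wa (algebraMap K L j)).filter (fun w => w.under (𝓞 K) = v)).image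
        (fun w : Pr L => w.asIdeal), v.asIdeal.ramificationIdx' P * v.asIdeal.inertiaDeg' P := by
    rw [Finset.sum_image hinj]
    refine Finset.sum_congr rfl fun w hw => ?_
    unfold Pool.Agent.Y725.LS.ldeg Pool.Agent.Y725.LS.below
    rw [FinitePlace.maximalIdeal_mk, FinitePlace.maximalIdeal_mk, (Finset.mem_filter.1 hw).2]
  rw [h1]
  refine Finset.sum_congr ?_ fun _ _ => rfl
  ext P
  rw [Finset.mem_image, IsDedekindDomain.mem_primesOverFinset_iff v.ne_bot]
  constructor
  · rintro ⟨w, hw, rfl⟩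
    obtain ⟨_, h2⟩ := Finset.mem_filter.1 hw
    refine ⟨w.isPrime, ⟨?_⟩⟩
    rw [← h2]
    rfl
  · rintro ⟨hP, hPv⟩
    have hbot : P ≠ ⊥ := by
      haveI : P.LiesOver v.asIdeal := hPv
      exact Ideal.ne_bot_of_liesOver_of_ne_bot v.ne_bot P
    refine ⟨⟨P, hP, hbot⟩, ?_, rfl⟩
    have hu : (⟨P, hP, hbot⟩ : Pr L).under (𝓞 K) = v := by
      apply HeightOneSpectrum.ext
      exact hPv.over.symm
    rw [Finset.mem_filter]
    refine ⟨?_, hu⟩
    rw [mem_wa_ext, hu]
    exact hv

/-- a part of the height in an extension -/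
theorem part_ext (j : K) (G : Finset (Pr K)) (hG : G ⊆ wa j) : ∃ GW : Finset (Pr L),
    (∀ w ∈ GW, w ∈ wa (algebraMap K L j) ∧ w.under (𝓞 K) ∈ G) ∧
    ∑ w ∈ GW, Real.log (fv w (algebraMap K L j)) =
      Module.finrank K L * ∑ v ∈ G, Real.log (fv v j) := by
  classical
  refine ⟨(wa (algebraMap K L j)).filter (fun w => w.under (𝓞 K) ∈ G), ?_, ?_⟩
  · intro w hw
    exact Finset.mem_filter.1 hw
  · rw [← Finset.sum_fiberwise_of_maps_to (g := fun w : Pr L => w.under (𝓞 K)) (t := G)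
      (fun w hw => (Finset.mem_filter.1 hw).2), Finset.mul_sum]
    refine Finset.sum_congr rfl fun v hv => ?_
    have h1 : ((wa (algebraMap K L j)).filter (fun w => w.under (𝓞 K) ∈ G)).filter
        (fun w => w.under (𝓞 K) = v) =
        (wa (algebraMap K L j)).filter (fun w => w.under (𝓞 K) = v) := by
      ext w
      simp only [Finset.mem_filter]
      constructor
      · rintro ⟨⟨h1, _⟩, h2⟩
        exact ⟨h1, h2⟩
      · rintro ⟨h1, h2⟩
        exact ⟨⟨h1, by rw [h2]; exact hv⟩, h2⟩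
    rw [h1, ← sum_ldeg_wa (L := L) j (hG hv)]
    push_cast
    rw [Finset.sum_mul]
    refine Finset.sum_congr rfl fun w hw => ?_
    rw [fv_ext, (Finset.mem_filter.1 hw).2, Real.log_pow]

end Ext

section Main

variable {K : Type} [Field K] [NumberField K]

/-- **The poles whose valuation is prime to `p` carry a small part of the height when the image is
small.** -/
theorem line_bound {A B : K} (hA : A ≠ 0) (hB : B ≠ 0) (hD : 4 * A ^ 3 + 27 * B ^ 2 ≠ 0)
    {p : ℕ} (hp : p.Prime) (hp5 : 5 ≤ p) {N : ℕ} (hN : 0 < N) (hNp : 2 * N < p)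
    (hno : ¬ HasSL A B p) (G : Finset (Pr K)) (hG : G ⊆ wa (jj A B))
    (hGp : ∀ v ∈ G, ¬ (p : ℤ) ∣ (adv K v).v (jj A B))
    (hGe : ∀ v ∈ G, 8 * (adv K v).v (p : K) < (p : ℤ) ^ 2 - 1) :
    ∑ v ∈ G, Real.log (fv v (jj A B)) ≤
      ht (jj A B) / N + 6 * (Module.finrank ℚ K * c9) := by
  classical
  have hc9 := c9_pos
  rcases G.eq_empty_or_nonempty with hGe0 | ⟨v₁, hv₁⟩
  · rw [hGe0, Finset.sum_empty]
    have := ht_nonneg (jj A B)
    positivity
  have hO : OrdP A B p := by
    by_contra hcon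
    exact hGp v₁ hv₁ (core A B hD hp hp5 hcon v₁ (hGe v₁ hv₁) (mem_wa_v (hG hv₁)).2)
  obtain ⟨v, hv, hv0, hst⟩ := has_or hD hp hno hO
  obtain ⟨L, iF, iN, iA, iG, e₁, e₂, e₃, Q, hcard, hsum, h12, h23, h13, hAL, hBL, hQ, hQ0⟩ :=
    line_field A B hD hp hp5 hv hv0 hst
  obtain ⟨GW, hGW, hsumG⟩ := part_ext (L := L) (jj A B) G hG
  have hjL : algebraMap K L (jj A B) = jj (algebraMap K L A) (algebraMap K L B) := by
    unfold jj
    simp only [map_div₀, map_mul, map_add, map_pow, map_ofNat]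
  have h1 := tors_sum hsum h12 h23 h13 hAL hBL ((_root_.map_ne_zero _).2 hA)
    ((_root_.map_ne_zero _).2 hB) hp N hN hNp (Q := Q) hQ hQ0 GW (by
      intro w hw
      rw [← hjL]
      exact (hGW w hw).1) (by
      intro w hw
      rw [← hjL]
      obtain ⟨e, he1, he2, he3⟩ := adv_over K L w
      rw [he3]
      intro h2
      rcases (Nat.prime_iff_prime_int.1 hp).dvd_or_dvd h2 with h3 | h3
      · exact hcard ((Int.natCast_dvd_natCast.1 h3).trans he2)
      · exact hGp _ (hGW w hw).2 h3)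
  rw [← hjL, hsumG, ht_ext] at h1
  have h2 : (Module.finrank ℚ L : ℝ) = Module.finrank K L * Module.finrank ℚ K := by
    rw [← Nat.cast_mul, mul_comm, Module.finrank_mul_finrank]
  rw [h2] at h1
  have hm : (0 : ℝ) < Module.finrank K L := by exact_mod_cast Module.finrank_pos
  refine le_of_mul_le_mul_left (h1.trans (le_of_eq ?_)) hm
  ring

/-- the poles above `p` of large ramification -/
theorem ram_sum {p : ℕ} (hp5 : 5 ≤ p) (R : Finset (Pr K))
    (hR : ∀ v ∈ R, (p : ℤ) ^ 2 - 1 ≤ 8 * (adv K v).v (p : K)) :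
    ∑ v ∈ R, Real.log (Nv v) ≤ 2 * Module.finrank ℚ K := by
  classical
  have hp0 : (p : K) ≠ 0 := by
    have : p ≠ 0 := by omega
    exact_mod_cast this
  have hpr : (5 : ℝ) ≤ p := by exact_mod_cast hp5
  set f : Pr K → ℝ := fun v => -Real.log (fv v ((p : ℕ) : K)) with hf
  have hf0 : ∀ v, 0 ≤ f v := by
    intro v
    have h3 : f v = (adv K v).v (p : K) * Real.log (Nv v) := by
      rw [hf]
      simp only
      rw [fv_adv v hp0, Real.log_zpow]
      push_cast
      ring
    rw [h3]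
    have h4 : (0 : ℝ) ≤ ((adv K v).v (p : K) : ℤ) := by
      exact_mod_cast v_natCast_nonneg v p (by omega)
    exact mul_nonneg h4 (log_Nv_pos v).le
  have e2 : ∑ᶠ v : Pr K, f v = Module.finrank ℚ K * Real.log p := by
    have h5 := fin_nat (K := K) (n := p) (by omega)
    rw [hf, finsum_neg_distrib, h5]
    ring
  have hfin : (Function.support f).Finite := by
    refine (Fs_log hp0).subset ?_
    intro v hv
    rw [Function.mem_support] at hv ⊢
    intro h
    apply hv
    have h' : Real.log (fv v ((p : ℕ) : K)) = 0 := h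
    rw [hf]
    simp only
    rw [h', neg_zero]
  have h1 : ∑ v ∈ R, f v ≤ Module.finrank ℚ K * Real.log p := by
    rw [← e2, finsum_eq_sum_of_support_subset (s := R ∪ hfin.toFinset) _ (by
      intro v hv
      rw [Finset.coe_union]
      exact Or.inr (by simpa using hv))]
    exact Finset.sum_le_sum_of_subset_of_nonneg Finset.subset_union_left fun v _ _ => hf0 v
  have h2 : ∀ v ∈ R, ((p : ℝ) ^ 2 - 1) / 8 * Real.log (Nv v) ≤ f v := by
    intro v hv
    have h3 : f v = (adv K v).v (p : K) * Real.log (Nv v) := by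
      rw [hf]
      simp only
      rw [fv_adv v hp0, Real.log_zpow]
      push_cast
      ring
    rw [h3]
    refine mul_le_mul_of_nonneg_right ?_ (log_Nv_pos v).le
    have h4 : ((p : ℝ) ^ 2 - 1) ≤ 8 * ((adv K v).v (p : K) : ℤ) := by exact_mod_cast hR v hv
    linarith
  have h3 := (Finset.sum_le_sum h2).trans h1
  rw [← Finset.mul_sum] at h3
  have h4 : Real.log p ≤ p - 1 := Real.log_le_sub_one_of_pos (by linarith)
  have hn : (0 : ℝ) ≤ Module.finrank ℚ K := Nat.cast_nonneg _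
  have h5 : ((p : ℝ) ^ 2 - 1) / 8 * ∑ v ∈ R, Real.log (Nv v) ≤
      ((p : ℝ) ^ 2 - 1) / 8 * (2 * Module.finrank ℚ K) := by
    refine h3.trans ?_
    have h6 : Real.log p ≤ ((p : ℝ) ^ 2 - 1) / 8 * 2 := by nlinarith
    calc (Module.finrank ℚ K : ℝ) * Real.log p ≤ Module.finrank ℚ K * (((p : ℝ) ^ 2 - 1) / 8 * 2) :=
          mul_le_mul_of_nonneg_left h6 hn
      _ = _ := by ring
  exact le_of_mul_le_mul_left h5 (by nlinarith)

/-- the constant -/
noncomputable def c10 : ℝ := 6 * c9 + 2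

theorem c10_pos : 0 < c10 := by
  unfold c10
  have := c9_pos
  linarith

/-- **The number of poles of `j` when the image is small.** -/
theorem fa_bound {A B : K} (hA : A ≠ 0) (hB : B ≠ 0) (hD : 4 * A ^ 3 + 27 * B ^ 2 ≠ 0)
    {p : ℕ} (hp : p.Prime) (hp5 : 5 ≤ p) (hno : ¬ HasSL A B p) :
    fa (jj A B) ≤ 3 / p * ht (jj A B) + Module.finrank ℚ K * c10 := by
  classical
  set j := jj A B with hj
  set N := (p - 1) / 2 with hN
  have hodd : p = 2 * N + 1 := by
    have h1 := hp.eq_two_or_odd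
    omega
  have hN2 : 2 ≤ N := by omega
  set G := (wa j).filter (fun v => ¬ (p : ℤ) ∣ (adv K v).v j ∧
    8 * (adv K v).v (p : K) < (p : ℤ) ^ 2 - 1) with hG
  set F := (wa j).filter (fun v => (p : ℤ) ∣ (adv K v).v j) with hF
  set R := (wa j).filter (fun v => (p : ℤ) ^ 2 - 1 ≤ 8 * (adv K v).v (p : K)) with hR
  have hlog : ∀ v ∈ wa j, Real.log (fv v j) = (-(adv K v).v j : ℤ) * Real.log (Nv v) := by
    intro v hv
    rw [fv_adv v (mem_wa_v hv).1, Real.log_zpow]
  have bG := line_bound hA hB hD hp hp5 (N := N) (by omega) (by omega) hno G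
    (Finset.filter_subset _ _) (fun v hv => (Finset.mem_filter.1 hv).2.1)
    (fun v hv => (Finset.mem_filter.1 hv).2.2)
  have bR := ram_sum (K := K) hp5 R (fun v hv => (Finset.mem_filter.1 hv).2)
  rw [← hj] at bG
  have hpr : (5 : ℝ) ≤ p := by exact_mod_cast hp5
  have hp0 : (0 : ℝ) < p := by linarith
  have tG : ∑ v ∈ G, Real.log (Nv v) ≤ ∑ v ∈ G, Real.log (fv v j) := by
    refine Finset.sum_le_sum fun v hv => ?_
    have hv' := (Finset.mem_filter.1 hv).1
    rw [hlog v hv']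
    have h1 : (1 : ℝ) ≤ (-(adv K v).v j : ℤ) := by
      have := (mem_wa_v hv').2
      exact_mod_cast (by omega : (1 : ℤ) ≤ -(adv K v).v j)
    have h2 := (log_Nv_pos v).le
    nlinarith
  have tF : p * ∑ v ∈ F, Real.log (Nv v) ≤ ∑ v ∈ F, Real.log (fv v j) := by
    rw [Finset.mul_sum]
    refine Finset.sum_le_sum fun v hv => ?_
    obtain ⟨hv', hd⟩ := Finset.mem_filter.1 hv
    rw [hlog v hv']
    refine mul_le_mul_of_nonneg_right ?_ (log_Nv_pos v).le
    have h1 := (mem_wa_v hv').2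
    have h2 : (p : ℤ) ≤ -(adv K v).v j :=
      Int.le_of_dvd (by omega) ((dvd_neg).2 hd)
    exact_mod_cast h2
  have hdisj : Disjoint G F := by
    rw [Finset.disjoint_left]
    intro v h1 h2
    exact (Finset.mem_filter.1 h1).2.1 (Finset.mem_filter.1 h2).2
  have hht : ∑ v ∈ G, Real.log (fv v j) + ∑ v ∈ F, Real.log (fv v j) ≤ ht j := by
    rw [← Finset.sum_union hdisj]
    refine le_trans ?_ (sum_max_le j (wa j))
    refine le_trans (Finset.sum_le_sum_of_subset_of_nonneg (Finset.union_subset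
      (Finset.filter_subset _ _) (Finset.filter_subset _ _)) ?_) (Finset.sum_le_sum ?_)
    · intro v hv _
      exact (Real.log_pos (mem_wa.1 hv)).le
    · intro v hv
      rw [max_eq_left (mem_wa.1 hv).le]
  have hfa : fa j ≤ ∑ v ∈ G, Real.log (Nv v) + ∑ v ∈ F, Real.log (Nv v) +
      ∑ v ∈ R, Real.log (Nv v) := by
    have hsub : wa j ⊆ (G ∪ F) ∪ R := by
      intro v hv
      by_cases h1 : (p : ℤ) ∣ (adv K v).v j
      · exact Finset.mem_union_left _ (Finset.mem_union_right _ (Finset.mem_filter.2 ⟨hv, h1⟩))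
      · by_cases h2 : 8 * (adv K v).v (p : K) < (p : ℤ) ^ 2 - 1
        · exact Finset.mem_union_left _ (Finset.mem_union_left _
            (Finset.mem_filter.2 ⟨hv, h1, h2⟩))
        · exact Finset.mem_union_right _ (Finset.mem_filter.2 ⟨hv, not_lt.1 h2⟩)
    have hl : ∀ v : Pr K, 0 ≤ Real.log (Nv v) := fun v => (log_Nv_pos v).le
    have h1 : fa j ≤ ∑ v ∈ (G ∪ F) ∪ R, Real.log (Nv v) :=
      Finset.sum_le_sum_of_subset_of_nonneg hsub fun v _ _ => hl v
    have h2 := Finset.sum_union_inter (s₁ := G ∪ F) (s₂ := R) (f := fun v => Real.log (Nv v))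
    have h3 : 0 ≤ ∑ v ∈ (G ∪ F) ∩ R, Real.log (Nv v) := Finset.sum_nonneg fun v _ => hl v
    rw [Finset.sum_union hdisj] at h2
    linarith
  set sG := ∑ v ∈ G, Real.log (fv v j) with hsG
  set sF := ∑ v ∈ F, Real.log (fv v j) with hsF
  set n : ℝ := (Module.finrank ℚ K : ℝ) with hn
  have hn0 : 0 ≤ n := Nat.cast_nonneg _
  have hc9 := c9_pos
  have hNr : (2 : ℝ) ≤ N := by exact_mod_cast hN2
  have hpN : (p : ℝ) = 2 * N + 1 := by exact_mod_cast hodd
  -- everything multiplied by `p`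
  have k1 : p * fa j ≤ (p - 1) * sG + ht j + p * (2 * n) := by
    have h1 : p * fa j ≤ p * (∑ v ∈ G, Real.log (Nv v)) + p * (∑ v ∈ F, Real.log (Nv v)) +
        p * ∑ v ∈ R, Real.log (Nv v) := by
      have := mul_le_mul_of_nonneg_left hfa hp0.le
      linarith
    have h2 : p * (∑ v ∈ G, Real.log (Nv v)) ≤ p * sG := mul_le_mul_of_nonneg_left tG hp0.le
    have h3 : p * (∑ v ∈ R, Real.log (Nv v)) ≤ p * (2 * n) := mul_le_mul_of_nonneg_left bR hp0.le
    linarith
  have k2 : (p - 1) * sG ≤ 2 * ht j + p * (6 * (n * c9)) := by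
    have h1 : (p - 1) * sG ≤ (p - 1) * (ht j / N + 6 * (n * c9)) :=
      mul_le_mul_of_nonneg_left bG (by linarith)
    have h2 : ((p : ℝ) - 1) * (ht j / N) = 2 * ht j := by
      rw [hpN]
      field_simp
      ring
    have h3 : ((p : ℝ) - 1) * (6 * (n * c9)) ≤ p * (6 * (n * c9)) :=
      mul_le_mul_of_nonneg_right (by linarith) (by positivity)
    linarith
  have k3 : p * fa j ≤ p * (3 / p * ht j + n * c10) := by
    have h1 : p * (3 / p * ht j + n * c10) = 3 * ht j + p * (n * c10) := by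
      field_simp
    rw [h1]
    unfold c10
    linarith
  exact le_of_mul_le_mul_left k3 hp0

end Main

end Pool.Agent.Q237.US
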