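import Mathlib
import Pool.Agent.Q237.US.Main
import Pool.Agent.Q237.LT.Tot

/-!
# The image contains `SL₂`: one curve, all extensions, few exceptions
-/

set_option autoImplicit false
set_option linter.unusedSectionVars false

namespace Pool.Agent.Q237.US

open NumberField IsDedekindDomain Finset Pool.Agent.H691R3 Pool.Agent.W223.AK
open Pool.Agent.TH942 Pool.Agent.TH910.LS Pool.Agent.Y733.LS Pool.Agent.Q237.LS Pool.Agent.Y733.UD
open Pool.Agent.Y673.Loc Pool.Agent.Y673.Loc.ZV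
open Pool.Agent.Q237.LT hiding cA
open Pool.Agent.Y673.SL (HasSL has_or)

section One

variable {K : Type} [Field K] [NumberField K]

theorem wa_zero {j : K} (h : ∀ v : Pr K, fv v j ≤ 1) : wa j = ∅ := by
  rw [Finset.eq_empty_iff_forall_notMem]
  intro v hv
  exact absurd (mem_wa.1 hv) (not_lt.2 (h v))

/-- no poles if a coefficient vanishes -/
theorem wa_empty {A B : K} (hD : 4 * A ^ 3 + 27 * B ^ 2 ≠ 0) (h : A = 0 ∨ B = 0) :
    wa (jj A B) = ∅ := by
  apply wa_zero
  intro v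
  rcases h with rfl | rfl
  · have : jj (0 : K) B = 0 := by unfold jj; simp
    rw [this, map_zero]
    exact zero_le_one
  · have hA : A ≠ 0 := by
      rintro rfl
      apply hD
      simp
    have : jj A (0 : K) = ((1728 : ℕ) : K) := by
      unfold jj
      push_cast
      field_simp
      ring
    rw [this]
    exact (fv_Na v).nat 1728

theorem line_bound' {A B : K} (hD : 4 * A ^ 3 + 27 * B ^ 2 ≠ 0)
    {p : ℕ} (hp : p.Prime) (hp5 : 5 ≤ p) {N : ℕ} (hN : 0 < N) (hNp : 2 * N < p)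
    (hno : ¬ HasSL A B p) (G : Finset (Pr K)) (hG : G ⊆ wa (jj A B))
    (hGp : ∀ v ∈ G, ¬ (p : ℤ) ∣ (adv K v).v (jj A B))
    (hGe : ∀ v ∈ G, 8 * (adv K v).v (p : K) < (p : ℤ) ^ 2 - 1) :
    ∑ v ∈ G, Real.log (fv v (jj A B)) ≤
      ht (jj A B) / N + 6 * (Module.finrank ℚ K * c9) := by
  by_cases h : A = 0 ∨ B = 0
  · rw [wa_empty hD h, Finset.subset_empty] at hG
    rw [hG, Finset.sum_empty]
    have h1 := ht_nonneg (jj A B)
    have h2 := c9_pos
    positivity
  · push Not at h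
    exact line_bound h.1 h.2 hD hp hp5 hN hNp hno G hG hGp hGe

theorem fa_bound' {A B : K} (hD : 4 * A ^ 3 + 27 * B ^ 2 ≠ 0)
    {p : ℕ} (hp : p.Prime) (hp5 : 5 ≤ p) (hno : ¬ HasSL A B p) :
    fa (jj A B) ≤ 3 / p * ht (jj A B) + Module.finrank ℚ K * c10 := by
  by_cases h : A = 0 ∨ B = 0
  · have h1 := ht_nonneg (jj A B)
    have h2 := c10_pos
    unfold fa
    rw [wa_empty hD h, Finset.sum_empty]
    positivity
  · push Not at h
    exact fa_bound h.1 h.2 hD hp hp5 hno

/-- the ramification index is at most the degree -/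
theorem v_le (v : Pr K) {p : ℕ} (hp : p.Prime) : (adv K v).v (p : K) ≤ Module.finrank ℚ K := by
  classical
  have hp0 : (p : K) ≠ 0 := by exact_mod_cast hp.ne_zero
  have hn1 : 1 ≤ Module.finrank ℚ K := Module.finrank_pos
  by_cases h0 : (adv K v).v (p : K) ≤ 0
  · have : (1 : ℤ) ≤ Module.finrank ℚ K := by exact_mod_cast hn1
    omega
  push Not at h0
  set f : Pr K → ℝ := fun v => -Real.log (fv v ((p : ℕ) : K)) with hf
  have hfe : ∀ v, f v = (adv K v).v (p : K) * Real.log (Nv v) := by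
    intro v
    rw [hf]
    simp only
    rw [fv_adv v hp0, Real.log_zpow]
    push_cast
    ring
  have hf0 : ∀ v, 0 ≤ f v := by
    intro v
    rw [hfe]
    have h4 : (0 : ℝ) ≤ ((adv K v).v (p : K) : ℤ) := by
      exact_mod_cast v_natCast_nonneg v p hp.ne_zero
    exact mul_nonneg h4 (log_Nv_pos v).le
  have e2 : ∑ᶠ v : Pr K, f v = Module.finrank ℚ K * Real.log p := by
    have h5 := fin_nat (K := K) (n := p) hp.ne_zero
    rw [hf, finsum_neg_distrib, h5]
    ring
  have hfin : (Function.support f).Finite := by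
    refine (Fs_log hp0).subset ?_
    intro v hv
    rw [Function.mem_support] at hv ⊢
    intro h
    apply hv
    have h' : Real.log (fv v ((p : ℕ) : K)) = 0 := h
    rw [hf]
    simp only
    rw [h', neg_zero]
  have h1 : f v ≤ Module.finrank ℚ K * Real.log p := by
    rw [← e2]
    exact single_le_finsum v hfin hf0
  rw [hfe] at h1
  -- the norm is divisible by `p`
  have hmem : ((p : ℕ) : 𝓞 K) ∈ v.asIdeal := by
    have h2 := (le_adv_iff K v ((p : ℕ) : 𝓞 K) (Nat.cast_ne_zero.2 hp.ne_zero) 1).1 (by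
      have e : algebraMap (𝓞 K) K (p : 𝓞 K) = (p : K) := map_natCast _ p
      rw [e]
      exact_mod_cast h0)
    rwa [pow_one] at h2
  have hdvd : p ∣ Ideal.absNorm v.asIdeal := by
    by_contra hcon
    have hcop : Nat.Coprime p (Ideal.absNorm v.asIdeal) := (Nat.Prime.coprime_iff_not_dvd hp).2 hcon
    have h3 : ((Ideal.absNorm v.asIdeal : ℕ) : 𝓞 K) ∈ v.asIdeal := Ideal.absNorm_mem _
    have h4 := Nat.isCoprime_iff_coprime.2 hcop
    obtain ⟨a, b, hab⟩ := h4
    apply v.isPrime.ne_top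
    rw [Ideal.eq_top_iff_one]
    have h5 : (1 : 𝓞 K) = (a : 𝓞 K) * (p : ℕ) + (b : 𝓞 K) * ((Ideal.absNorm v.asIdeal : ℕ) : 𝓞 K) := by
      have h6 := congrArg (Int.cast : ℤ → 𝓞 K) hab
      push_cast at h6
      exact h6.symm
    rw [h5]
    exact v.asIdeal.add_mem (v.asIdeal.mul_mem_left _ hmem) (v.asIdeal.mul_mem_left _ h3)
  have hNp : (p : ℝ) ≤ Nv v := by
    have h2 : 0 < Ideal.absNorm v.asIdeal := by
      have h8 : (0 : ℝ) < (Ideal.absNorm v.asIdeal : ℝ) := Nv_pos v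
      exact_mod_cast h8
    have h9 : (p : ℝ) ≤ (Ideal.absNorm v.asIdeal : ℝ) := by
      exact_mod_cast Nat.le_of_dvd h2 hdvd
    exact h9
  have hlp : 0 < Real.log p := Real.log_pos (by exact_mod_cast hp.one_lt)
  have h3 : Real.log p ≤ Real.log (Nv v) :=
    Real.log_le_log (by exact_mod_cast hp.pos) hNp
  have h4 : ((adv K v).v (p : K) : ℝ) * Real.log p ≤ Module.finrank ℚ K * Real.log p :=
    (mul_le_mul_of_nonneg_left h3 (by exact_mod_cast h0.le)).trans h1
  have h5 := le_of_mul_le_mul_right h4 hlp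
  exact_mod_cast h5

/-- **large primes** -/
theorem large_bound {A B : K} (hD : 4 * A ^ 3 + 27 * B ^ 2 ≠ 0)
    {p : ℕ} (hp : p.Prime) (hp5 : 5 ≤ p) (hn : 8 * Module.finrank ℚ K + 1 < p ^ 2)
    (hh : ht (jj A B) < p * Real.log 2) (hno : ¬ HasSL A B p) :
    ∑ v ∈ wa (jj A B), Real.log (fv v (jj A B)) ≤ Module.finrank ℚ K * c10 := by
  classical
  have hodd : p = 2 * ((p - 1) / 2) + 1 := by
    have h1 := hp.eq_two_or_odd
    omega
  have hpr : (5 : ℝ) ≤ p := by exact_mod_cast hp5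
  have b := line_bound' hD hp hp5 (N := (p - 1) / 2) (by omega) (by omega) hno (wa (jj A B))
    (Finset.Subset.refl _) (by
      intro v hv hd
      obtain ⟨h0, h1⟩ := mem_wa_v hv
      have h2 : (p : ℤ) ≤ -(adv K v).v (jj A B) := Int.le_of_dvd (by omega) ((dvd_neg).2 hd)
      have h3 : (p : ℝ) * Real.log (Nv v) ≤ Real.log (fv v (jj A B)) := by
        rw [fv_adv v h0, Real.log_zpow]
        exact mul_le_mul_of_nonneg_right (by exact_mod_cast h2) (log_Nv_pos v).le
      have h4 : Real.log (fv v (jj A B)) ≤ ht (jj A B) := by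
        refine le_trans ?_ (sum_max_le (jj A B) {v})
        rw [Finset.sum_singleton, max_eq_left (mem_wa.1 hv).le]
      have h5 : Real.log 2 ≤ Real.log (Nv v) := by
        apply Real.log_le_log (by norm_num)
        have h6 := Nv_one_lt v
        have h7 : (1 : ℝ) < (Ideal.absNorm v.asIdeal : ℝ) := h6
        have h8 : 1 < Ideal.absNorm v.asIdeal := by exact_mod_cast h7
        have h9 : (2 : ℝ) ≤ (Ideal.absNorm v.asIdeal : ℝ) := by
          exact_mod_cast (by omega : 2 ≤ Ideal.absNorm v.asIdeal)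
        exact h9
      have h6 : (p : ℝ) * Real.log 2 ≤ p * Real.log (Nv v) :=
        mul_le_mul_of_nonneg_left h5 (by linarith)
      linarith) (by
      intro v hv
      have h1 := v_le v hp
      have h2 : (8 : ℤ) * Module.finrank ℚ K + 1 < (p : ℤ) ^ 2 := by exact_mod_cast hn
      omega)
  refine b.trans ?_
  set N := (p - 1) / 2 with hN
  have hpN : (p : ℝ) = 2 * N + 1 := by exact_mod_cast hodd
  have hN2 : (2 : ℝ) ≤ N := by
    have : 2 ≤ N := by omega
    exact_mod_cast this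
  have hl2 : Real.log 2 < 0.7 := by
    have := Real.log_two_lt_d9
    norm_num at this ⊢
    linarith
  have h1 : ht (jj A B) / N ≤ 2 := by
    rw [div_le_iff₀ (by linarith)]
    have : (p : ℝ) * Real.log 2 ≤ p * 0.7 := mul_le_mul_of_nonneg_left hl2.le (by linarith)
    linarith
  have h2 : (1 : ℝ) ≤ Module.finrank ℚ K := by
    exact_mod_cast (Module.finrank_pos : 0 < Module.finrank ℚ K)
  unfold c10
  nlinarith

end One

section Two

variable {K : Type} [Field K] [NumberField K]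

/-- the image contains `SL₂(𝔽_p)` for all `p ≥ 5` with `3 ≤ θ p`, for all curves of invariant `j` -/
def SLj (θ : ℝ) {K : Type} [Field K] (j : K) : Prop :=
  ∀ A B : K, 4 * A ^ 3 + 27 * B ^ 2 ≠ 0 → jj A B = j → ∀ p : ℕ, p.Prime → 5 ≤ p → 3 ≤ θ * p →
    HasSL A B p

/-- in all extensions of small root discriminant -/
def USL (κ θ : ℝ) (j : K) : Prop :=
  ∀ (L : Type) [Field L] [NumberField L] [Algebra K L],
    Real.log |(discr L : ℝ)| ≤ Module.finrank K L * (Real.log |(discr K : ℝ)| + κ * ht j) →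
    SLj θ (algebraMap K L j)

theorem SLj_of {θ η : ℝ} {j : K} (hη : 0 < η) (hf : (θ + η) * ht j ≤ fa j)
    (hh : Module.finrank ℚ K * c10 < η * ht j) : SLj θ j := by
  intro A B hD hj p hp hp5 hpθ
  by_contra hno
  have h1 := fa_bound' hD hp hp5 hno
  rw [hj] at h1
  have hp0 : (0 : ℝ) < p := by exact_mod_cast hp.pos
  have h2 : 3 / (p : ℝ) ≤ θ := by
    rw [div_le_iff₀ hp0]
    exact hpθ
  have h3 := mul_le_mul_of_nonneg_right h2 (ht_nonneg j)
  linarith

theorem USL_of {θ κ η : ℝ} {j : K} (hη : 0 < η) (hf : (θ + κ + η) * ht j ≤ fa j)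
    (hh : Module.finrank ℚ K * c10 < η * ht j) : USL κ θ j := by
  intro L _ _ _ hL
  have hm : (0 : ℝ) < Module.finrank K L := by exact_mod_cast Module.finrank_pos
  have e1 := ht_ext (L := L) j
  have e3 := fa_ext (L := L) j
  refine SLj_of hη ?_ ?_
  · rw [e1]
    refine le_trans ?_ e3
    have h5 : Module.finrank K L * ((θ + κ + η) * ht j) ≤ Module.finrank K L * fa j :=
      mul_le_mul_of_nonneg_left hf hm.le
    linarith
  · rw [e1, finrank_mul (K := K)]
    have h5 := mul_lt_mul_of_pos_left hh hm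
    linarith

/-- **the exceptional invariants** -/
theorem exc_countS {θ κ ε : ℝ} (hθ : 0 ≤ θ) (hκ0 : 0 ≤ κ) (hε : 0 < ε) :
    ∃ A : ℝ, 0 ≤ A ∧
    ∀ (K : Type) [Field K] [NumberField K] (X : ℝ) (E : Finset K), 0 ≤ X →
      (∀ j ∈ E, j ≠ 0 ∧ j ≠ 1728 ∧ ht j ≤ X ∧ ¬ USL κ θ j) →
        (E.card : ℝ) ≤ Real.exp (Module.finrank ℚ K * A + (1 + κ + θ + ε) * X) := by
  classical
  obtain ⟨A1, hA1, hall⟩ := all_card (ε := 1) one_pos
  obtain ⟨A2, hA2, hspc⟩ := fa_count (half_pos hε)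
  set L0 : ℝ := c10 / (ε / 2) + 1 with hL0
  have hL00 : 0 ≤ L0 := by
    have := c10_pos
    positivity
  have hl3 : 0 ≤ Real.log 3 := Real.log_nonneg (by norm_num)
  refine ⟨Real.log 3 + A1 + 3 * L0 + A2, by positivity, ?_⟩
  intro K _ _ X E hX hE
  set n := Module.finrank ℚ K with hn
  have hn1 : (1 : ℝ) ≤ n := by exact_mod_cast Module.finrank_pos (R := ℚ) (M := K)
  have hn0 : (0 : ℝ) ≤ n := by linarith
  set E2 := E.filter fun j => j ≠ -1 ∧ ht j ≤ n * L0 with hE2
  set E3 := E.filter fun j => j ≠ -1 ∧ fa j ≤ (θ + κ + ε / 2) * ht j with hE3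
  have hsub : E ⊆ (E2 ∪ E3) ∪ {-1} := by
    intro j hj
    rw [Finset.mem_union, Finset.mem_singleton, Finset.mem_union]
    by_cases h1 : j = -1
    · exact Or.inr h1
    · left
      obtain ⟨h2, h3, h4, h5⟩ := hE j hj
      by_contra hcon
      push Not at hcon
      obtain ⟨c1, c2⟩ := hcon
      rw [hE2, Finset.mem_filter] at c1
      rw [hE3, Finset.mem_filter] at c2
      push Not at c1 c2
      refine h5 (USL_of (half_pos hε) (c2 hj h1).le ?_)
      have h6 := c1 hj h1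
      have h7 : n * c10 = ε / 2 * (n * (c10 / (ε / 2))) := by field_simp
      rw [← hn, h7]
      refine mul_lt_mul_of_pos_left ?_ (half_pos hε)
      refine lt_of_le_of_lt ?_ h6
      exact mul_le_mul_of_nonneg_left (by rw [hL0]; linarith) hn0
  have hPt : ∀ j ∈ E, j ≠ -1 → Pt j := by
    intro j hj h1
    refine ⟨(hE j hj).1, fun h2 => h1 ?_⟩
    linear_combination h2
  have b2 : (E2.card : ℝ) ≤ Real.exp (n * (A1 + 3 * L0)) := by
    refine (hall K (n * L0) E2 ?_).trans (le_of_eq (by congr 1; ring))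
    intro j hj
    rw [hE2, Finset.mem_filter] at hj
    exact ⟨hPt j hj.1 hj.2.1, hj.2.2⟩
  have b3 : (E3.card : ℝ) ≤ Real.exp (n * A2 + (1 + (θ + κ + ε / 2) + ε / 2) * X) := by
    refine hspc K (θ + κ + ε / 2) X E3 (by linarith) ?_
    intro j hj
    rw [hE3, Finset.mem_filter] at hj
    exact ⟨hPt j hj.1 hj.2.1, (hE j hj.1).2.2.1, hj.2.2⟩
  have hcard : (E.card : ℝ) ≤ E2.card + E3.card + 1 := by
    have h1 := Finset.card_le_card hsub
    have h2 := Finset.card_union_le (E2 ∪ E3) ({-1} : Finset K)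
    have h3 := Finset.card_union_le E2 E3
    rw [Finset.card_singleton] at h2
    exact_mod_cast (by omega : E.card ≤ E2.card + E3.card + 1)
  have hcoef : 0 ≤ 1 + κ + θ + ε := by linarith
  set M0 : ℝ := n * (A1 + 3 * L0 + A2) + (1 + κ + θ + ε) * X with hM0
  have m2 : Real.exp (n * (A1 + 3 * L0)) ≤ Real.exp M0 := by
    apply Real.exp_le_exp.2
    have h1 : 0 ≤ (1 + κ + θ + ε) * X := mul_nonneg hcoef hX
    have h2 : 0 ≤ n * A2 := by positivity
    rw [hM0]
    nlinarith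
  have m3 : Real.exp (n * A2 + (1 + (θ + κ + ε / 2) + ε / 2) * X) ≤ Real.exp M0 := by
    apply Real.exp_le_exp.2
    have h2 : 0 ≤ n * (A1 + 3 * L0) := by positivity
    rw [hM0]
    nlinarith
  have m1 : 1 ≤ Real.exp M0 := by
    apply Real.one_le_exp
    have h1 : 0 ≤ (1 + κ + θ + ε) * X := mul_nonneg hcoef hX
    rw [hM0]
    positivity
  have hfin : (E.card : ℝ) ≤ 3 * Real.exp M0 := by linarith
  refine hfin.trans ?_
  have h4 : (3 : ℝ) ≤ Real.exp (n * Real.log 3) := by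
    calc (3 : ℝ) = Real.exp (Real.log 3) := (Real.exp_log (by norm_num)).symm
      _ ≤ Real.exp (n * Real.log 3) := Real.exp_le_exp.2 (by nlinarith)
  calc 3 * Real.exp M0 ≤ Real.exp (n * Real.log 3) * Real.exp M0 :=
        mul_le_mul_of_nonneg_right h4 (Real.exp_pos _).le
    _ = _ := by
        rw [← Real.exp_add, hM0]
        congr 1
        ring

theorem log_countS {θ κ ε : ℝ} (hθ : 0 ≤ θ) (hκ0 : 0 ≤ κ) (hε : 0 < ε) (R : Prp)
    (hR : ∀ (K : Type) [Field K] [NumberField K] (j : K), USL κ θ j → R K j) :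
    ∃ A1 : ℝ, 0 ≤ A1 ∧ ∀ (K : Type) [Field K] [NumberField K] (B : ℝ), 1 ≤ B →
      ((ExcS R K B).ncard : ℝ) ≤ Real.exp (Module.finrank ℚ K *
        (A1 + (1 + κ + θ + ε) * Real.log B)) := by
  obtain ⟨A, hA, h⟩ := exc_countS hθ hκ0 hε
  refine ⟨A, hA, ?_⟩
  intro K _ _ B hB
  refine (ncard_le fun E hE => ?_).2
  refine (h K (Module.finrank ℚ K * Real.log B) E
    (mul_nonneg n_pos.le (Real.log_nonneg hB)) ?_).trans (le_of_eq (by congr 1; ring))
  intro j hj
  obtain ⟨⟨h1, h2, h3⟩, h4⟩ := hE (Finset.mem_coe.2 hj)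
  rw [ht_log] at h3
  exact ⟨h1, h2, h3, fun h5 => h4 (hR K j h5)⟩

end Two

end Pool.Agent.Q237.US
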